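import Pool.Agent.Helper77.Graphoid.Zero

open Topology Set Pool.Agent.Helper77.Graphoid

namespace Pool.Agent.Results.MP_294eca_gt.CohDimLowerBound

/-- For every family `F` of rational functions in two real variables and every abelian group `G`
that is not 2-divisible, the cohomological dimension `dim_G` of the graphoid of `F` is at least
`2`: for `n = 0` and `n = 1` and every Eilenberg–MacLane CW-complex `K = K(G, n)` there is a
continuous map from a closed subset of the graphoid into `K` which does not extend continuously
to the graphoid. -/
theorem result (F : Set RatXY) (G : Type*) [AddCommGroup G]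
    (hG : ¬ ∀ g : G, ∃ h : G, g = h + h) (n : ℕ) (hn : n < 2) (K : Type*) [TopologicalSpace K]
    (hK : IsEilenbergMacLane G n K) : ¬ ExtProp (graphoid F) K := by
  obtain rfl | rfl : n = 0 ∨ n = 1 := by omega
  · exact not_extProp_zero F G hG K hK
  · exact not_extProp_one F G hG K hK

end Pool.Agent.Results.MP_294eca_gt.CohDimLowerBound
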